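import Pool.Agent.Y294.TB.Stm

/-!
From the window form of the theorem to the number of bounces in a period which are not at
noncircular algebraic boundary points.
-/

set_option autoImplicit false

open MeasureTheory Set Filter Topology
open scoped InnerProductSpace
open Pool.Agent.H721R2.Quart Pool.Agent.H721R2.Ivrii

namespace Pool.Agent.Y294.TB

open Pool.Agent.TH746 Pool.Agent.TH746.AL MvPolynomial H450Al H450Sp

/-- The phase points whose billiard trajectory is periodic modulo some isometry `g ∈ Γ`, with any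
number `n ≥ 1` of bounces in a period, at most two of which are not at noncircular algebraic
boundary points. -/
def PerTwo {d : ℕ} (Γ : Set (EuclideanSpace ℝ (Fin d) ≃ᵃⁱ[ℝ] EuclideanSpace ℝ (Fin d)))
    (Ω : Set (EuclideanSpace ℝ (Fin d))) :
    Set (EuclideanSpace ℝ (Fin d) × EuclideanSpace ℝ (Fin d)) :=
  {z | ∃ g ∈ Γ, ∃ (n : ℕ) (p u : ℕ → EuclideanSpace ℝ (Fin d)), OrbitMod Ω g n p u ∧
    (p 0, u 0) = z ∧ {k | k < n ∧ ¬ AlgAt Ω (p k)}.ncard ≤ 2}

theorem exists_pair {n : ℕ} (hn : 2 ≤ n) (s : Set ℕ) (hs : ∀ k ∈ s, k < n) (hc : s.ncard ≤ 2) :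
    ∃ a b, a < b ∧ b < n ∧ ∀ k ∈ s, k = a ∨ k = b := by
  have hfin : s.Finite := (Set.finite_Iio n).subset hs
  rcases Nat.lt_or_ge s.ncard 1 with h0 | h0
  · have he : s = ∅ := by
      rw [← Set.ncard_eq_zero hfin]; omega
    refine ⟨0, 1, by omega, by omega, fun k hk => ?_⟩
    rw [he] at hk
    exact absurd hk (Set.notMem_empty k)
  · rcases Nat.lt_or_ge s.ncard 2 with h1 | h1
    · obtain ⟨c, hc1⟩ := Set.ncard_eq_one.1 (show s.ncard = 1 by omega)
      have hcn : c < n := hs c (by rw [hc1]; exact rfl)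
      rcases Nat.eq_zero_or_pos c with h2 | h2
      · refine ⟨0, 1, by omega, by omega, fun k hk => ?_⟩
        rw [hc1] at hk
        left
        rw [← h2]; exact hk
      · refine ⟨0, c, h2, hcn, fun k hk => ?_⟩
        rw [hc1] at hk
        exact Or.inr hk
    · obtain ⟨c, d, hcd, hs1⟩ := Set.ncard_eq_two.1 (show s.ncard = 2 by omega)
      have hcn : c < n := hs c (by rw [hs1]; exact Or.inl rfl)
      have hdn : d < n := hs d (by rw [hs1]; exact Or.inr rfl)
      rcases Nat.lt_or_ge c d with h2 | h2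
      · exact ⟨c, d, h2, hdn, fun k hk => by rw [hs1] at hk; exact hk⟩
      · exact ⟨d, c, by omega, hcn, fun k hk => by rw [hs1] at hk; exact hk.symm⟩

theorem perTwo_null (hG : S_GLOB) (hI : S_INV) (Ω : Set (EuclideanSpace ℝ (Fin 2)))
    (Γ : Set (EuclideanSpace ℝ (Fin 2) ≃ᵃⁱ[ℝ] EuclideanSpace ℝ (Fin 2)))
    (hΓ : Γ.Countable) (hinv : ∀ g ∈ Γ, g ⁻¹' Ω = Ω) : μH[(2 : ℝ)] (PerTwo Γ Ω) = 0 := by
  have h1 := perLoop_null (d := 2) le_rfl Ω Γ hΓ hinv
  have h2 := hG Ω Γ hΓ hinv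
  have e : ((2 * 2 - 2 : ℕ) : ℝ) = 2 := by norm_num
  rw [e] at h1
  refine measure_mono_null ?_ (measure_union_null h1 h2)
  rintro z ⟨g, hg, n, p, u, hor, hz, hc⟩
  have hn := hor.pos
  rcases Nat.lt_or_ge n 2 with hn2 | hn2
  · left
    apply one_sub_perLoop
    exact ⟨g, hg, n, p, u, hor, hz, 0, by omega, fun k hk hk' => by omega⟩
  · right
    obtain ⟨a, b, hab, hbn, hs⟩ := exists_pair hn2 {k | k < n ∧ ¬ AlgAt Ω (p k)}
      (fun k hk => hk.1) hc
    refine ⟨g, hg, n, p, u, hor, hz, a, by omega, b, hab, by omega, fun k hk1 hk2 hkb => ?_⟩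
    rcases Nat.lt_or_ge k n with h | h
    · by_contra hcon
      rcases hs k ⟨h, hcon⟩ with h3 | h3
      · omega
      · exact hkb h3
    · have h3 : AlgAt Ω (p (k - n)) := by
        by_contra hcon
        rcases hs (k - n) ⟨by omega, hcon⟩ with h3 | h3 <;> omega
      have h4 := hor.perp (k - n)
      rw [Nat.sub_add_cancel h] at h4
      rw [h4]
      exact hI 2 Ω g (p (k - n)) (hinv g hg) h3

end Pool.Agent.Y294.TB
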