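import Pool.Agent.Y294.TB.Fin
import Pool.Agent.Y294.TB.Loc3
import Pool.Agent.Y576.TB.Delta
import Pool.Agent.Y474.TB.Chain
import Pool.Agent.Y496.TB.Len
import Pool.Agent.Y495.TB.Core1
import Pool.Agent.Y319.TB.Core2
import Pool.Agent.Y641.TB.Two
import Pool.Agent.Y641.TB.Good
import Pool.Agent.Y86.TB.Sel
import Pool.Agent.Y275.TB.PT12
import Pool.Agent.Y961.TB.Pt34
import Pool.Agent.Y568.TB.SURJ
import Pool.Agent.Y919.TB.Chart
import Pool.Agent.Y288.TB.Glob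
import Pool.Agent.Y394.TB.Inv

/-!
The theorem of the project TB: planar tables, at most two bounces in a period not at noncircular
algebraic boundary points.
-/

set_option autoImplicit false

open MeasureTheory Set Filter Topology
open scoped InnerProductSpace
open Pool.Agent.H721R2.Quart Pool.Agent.H721R2.Ivrii

namespace Pool.Agent.Y294.TB

theorem core1_ : S_CORE1 :=
  Pool.Agent.Y495.TB.core1 Pool.Agent.Y474.TB.chain Pool.Agent.Y496.TB.len
    Pool.Agent.Y496.TB.place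

theorem core2_ : S_CORE2 :=
  Pool.Agent.Y319.TB.core2 Pool.Agent.Y474.TB.chain Pool.Agent.Y496.TB.len
    Pool.Agent.Y496.TB.place Pool.Agent.Y576.TB.delta

theorem local_thm : S_LOCAL :=
  local_ Pool.Agent.Y86.TB.sel Pool.Agent.Y641.TB.good Pool.Agent.Y568.TB.ni
    (Pool.Agent.Y275.TB.pt1 Pool.Agent.Y568.TB.surj Pool.Agent.Y641.TB.dep)
    (Pool.Agent.Y275.TB.pt2 Pool.Agent.Y568.TB.surj Pool.Agent.Y641.TB.dep)
    (Pool.Agent.Y961.TB.pt3 Pool.Agent.Y568.TB.surj Pool.Agent.Y641.TB.dep)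
    (Pool.Agent.Y961.TB.pt4 Pool.Agent.Y568.TB.surj Pool.Agent.Y641.TB.dep)
    Pool.Agent.Y641.TB.two core1_ core2_

theorem glob_thm : S_GLOB :=
  Pool.Agent.Y288.TB.glob Pool.Agent.Y919.TB.chart local_thm

theorem perTwo_thm (Ω : Set (EuclideanSpace ℝ (Fin 2)))
    (Γ : Set (EuclideanSpace ℝ (Fin 2) ≃ᵃⁱ[ℝ] EuclideanSpace ℝ (Fin 2)))
    (hΓ : Γ.Countable) (hinv : ∀ g ∈ Γ, g ⁻¹' Ω = Ω) : μH[(2 : ℝ)] (PerTwo Γ Ω) = 0 :=
  perTwo_null glob_thm Pool.Agent.Y394.TB.Inv.inv Ω Γ hΓ hinv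

end Pool.Agent.Y294.TB
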