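import Pool.Agent.Y294.TB.Stm

/-!
Coordinates of the closing relations, matrix of the composition of a reflection and an isometry.
-/

set_option autoImplicit false

open MeasureTheory Set Filter Topology
open scoped InnerProductSpace
open Pool.Agent.H721R2.Quart Pool.Agent.H721R2.Ivrii

namespace Pool.Agent.Y294.TB

open Pool.Agent.TH746 Pool.Agent.TH746.AL MvPolynomial H450Al H450Sp

theorem lin_co (g : EE 0 ≃ᵃⁱ[ℝ] EE 0) (v : EE 0) (j : Fin 2) :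
    (g.linearIsometryEquiv v).ofLp j =
      ∑ i, v.ofLp i * (g.linearIsometryEquiv (EuclideanSpace.single i (1 : ℝ))).ofLp j := by
  have hx : v = ∑ i, v.ofLp i • (EuclideanSpace.single i (1 : ℝ) : EE 0) := by
    ext j
    fin_cases j <;> simp
  conv_lhs => rw [hx]
  rw [map_sum]
  simp only [map_smul]
  simp

theorem aff_co (g : EE 0 ≃ᵃⁱ[ℝ] EE 0) (x : EE 0) (j : Fin 2) :
    (g x).ofLp j =
      (∑ i, x.ofLp i * (g.linearIsometryEquiv (EuclideanSpace.single i (1 : ℝ))).ofLp j) +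
        (g 0).ofLp j := by
  have e1 := g.map_vsub x 0
  simp only [vsub_eq_sub, sub_zero] at e1
  have e2 : g x = g.linearIsometryEquiv x + g 0 := by rw [e1]; abel
  rw [e2, ← lin_co]
  rfl

theorem inner_co (v w : EE 0) : ⟪v, w⟫_ℝ = ∑ i, v.ofLp i * w.ofLp i := by
  rw [PiLp.inner_apply]
  apply Finset.sum_congr rfl
  intro i _
  simp [mul_comm]

theorem norm_co (v : EE 0) : ⟪v, v⟫_ℝ = ∑ i, v.ofLp i ^ 2 := by
  rw [inner_co]
  apply Finset.sum_congr rfl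
  intro i _
  ring

theorem rf_co (n v : EE 0) (i : Fin 2) :
    (rf n v).ofLp i = v.ofLp i - 2 * (∑ l, n.ofLp l * v.ofLp l) * n.ofLp i := by
  unfold rf
  rw [inner_co]
  rfl

/-- the matrix of `G ∘ rf n` -/
noncomputable def Mx (g : EE 0 ≃ᵃⁱ[ℝ] EE 0) (n : EE 0) (i l : Fin 2) : ℝ :=
  ∑ m, ((if m = l then 1 else 0) - 2 * n.ofLp l * n.ofLp m) *
    (g.linearIsometryEquiv (EuclideanSpace.single m (1 : ℝ))).ofLp i

theorem Mx_apply (g : EE 0 ≃ᵃⁱ[ℝ] EE 0) (n v : EE 0) (i : Fin 2) :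
    ∑ l, Mx g n i l * v.ofLp l = (g.linearIsometryEquiv (rf n v)).ofLp i := by
  rw [lin_co]
  have h1 : ((0 : Fin 2) = 1) = False := by simp
  have h2 : ((1 : Fin 2) = 0) = False := by simp
  have e1 : ∀ f : Fin 2 → ℝ, ∑ l : Fin (0 + 2), f l = f 0 + f 1 := fun f => Fin.sum_univ_two f
  simp only [rf_co, Mx]
  rw [Fin.sum_univ_two, Fin.sum_univ_two, Fin.sum_univ_two, e1, e1]
  simp only [Fin.isValue, if_true, h1, h2, if_false]
  ring

theorem Mx_norm (g : EE 0 ≃ᵃⁱ[ℝ] EE 0) (n : EE 0) (hn : ⟪n, n⟫_ℝ = 1) (v : Fin 2 → ℝ) :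
    ∑ i, (∑ l, Mx g n i l * v l) ^ 2 = ∑ i, v i ^ 2 := by
  have h1 : ∀ i, ∑ l, Mx g n i l * v l =
      (g.linearIsometryEquiv (rf n (WithLp.toLp 2 v))).ofLp i := fun i => by
    rw [← Mx_apply]
  simp_rw [h1]
  rw [← norm_co, LinearIsometryEquiv.inner_map_map, G3_rf_inner hn, norm_co]

/-- the constants of an isometry are in a field -/
def InF (κ : Type*) [Field κ] [Algebra κ ℝ] (a : ℝ) : Prop := ∃ c : κ, algebraMap κ ℝ c = a

theorem InF.cl {κ : Type*} [Field κ] [Algebra κ ℝ] {a : ℝ} (h : InF κ a) (S : Set ℝ) :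
    a ∈ clAlg κ S := by
  obtain ⟨c, rfl⟩ := h
  exact (clAlg κ S).algebraMap_mem c

theorem lin_cl {κ : Type*} [Field κ] [Algebra κ ℝ] {S : Set ℝ} (g : EE 0 ≃ᵃⁱ[ℝ] EE 0)
    (hg : ∀ i l, InF κ ((g.linearIsometryEquiv (EuclideanSpace.single i 1)).ofLp l)) (v : EE 0)
    (hv : ∀ i, v.ofLp i ∈ cl κ S) (i : Fin 2) : (g.linearIsometryEquiv v).ofLp i ∈ cl κ S := by
  rw [lin_co]
  exact (clAlg κ S).sum_mem fun l _ => (clAlg κ S).mul_mem (hv l) ((hg l i).cl S)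

theorem aff_cl {κ : Type*} [Field κ] [Algebra κ ℝ] {S : Set ℝ} (g : EE 0 ≃ᵃⁱ[ℝ] EE 0)
    (h0 : ∀ i, InF κ ((g 0).ofLp i))
    (hg : ∀ i l, InF κ ((g.linearIsometryEquiv (EuclideanSpace.single i 1)).ofLp l)) (v : EE 0)
    (hv : ∀ i, v.ofLp i ∈ cl κ S) (i : Fin 2) : (g v).ofLp i ∈ cl κ S := by
  rw [aff_co]
  exact (clAlg κ S).add_mem ((clAlg κ S).sum_mem fun l _ =>
    (clAlg κ S).mul_mem (hv l) ((hg l i).cl S)) ((h0 i).cl S)

theorem rf_cl {κ : Type*} [Field κ] [Algebra κ ℝ] {S : Set ℝ} (n v : EE 0)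
    (hn : ∀ i, n.ofLp i ∈ cl κ S) (hv : ∀ i, v.ofLp i ∈ cl κ S) (i : Fin 2) :
    (rf n v).ofLp i ∈ cl κ S := by
  rw [rf_co]
  have h2 : (2 : ℝ) ∈ clAlg κ S := by
    have := (clAlg κ S).algebraMap_mem (2 : κ)
    rwa [map_ofNat] at this
  exact (clAlg κ S).sub_mem (hv i) ((clAlg κ S).mul_mem ((clAlg κ S).mul_mem h2
    ((clAlg κ S).sum_mem fun l _ => (clAlg κ S).mul_mem (hn l) (hv l))) (hn i))

/-- the entries of the matrix -/
theorem Mx_mem {κ : Type*} [Field κ] [Algebra κ ℝ] (K : IntermediateField κ ℝ)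
    (g : EE 0 ≃ᵃⁱ[ℝ] EE 0)
    (hg : ∀ i l, InF κ ((g.linearIsometryEquiv (EuclideanSpace.single i 1)).ofLp l)) (n : EE 0)
    (hn : ∀ i, n.ofLp i ∈ K) (i l : Fin 2) : Mx g n i l ∈ K := by
  unfold Mx
  refine sum_mem fun m _ => mul_mem (sub_mem ?_ (mul_mem (mul_mem ?_ (hn l)) (hn m))) ?_
  · split_ifs
    · exact one_mem K
    · exact zero_mem K
  · exact ofNat_mem K 2
  · obtain ⟨c, hc⟩ := hg m i
    rw [← hc]
    exact K.algebraMap_mem c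

/-- rank at the end point -/
theorem rk_aff {κ : Type*} [Field κ] [Algebra κ ℝ] (g : EE 0 ≃ᵃⁱ[ℝ] EE 0)
    (h0 : ∀ i, InF κ ((g 0).ofLp i))
    (hg : ∀ i l, InF κ ((g.linearIsometryEquiv (EuclideanSpace.single i 1)).ofLp l)) (x : EE 0) :
    rk κ (range x.ofLp) ≤ rk κ (range (g x).ofLp) := by
  apply rk_mono
  rintro _ ⟨j, rfl⟩
  set S := range (g x).ofLp with hS
  -- `x = G⁻¹ (g x - g 0)` and the inverse is the transpose
  have e1 := g.map_vsub x 0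
  simp only [vsub_eq_sub, sub_zero] at e1
  have e2 : x.ofLp j = ⟪g.linearIsometryEquiv x,
      g.linearIsometryEquiv (EuclideanSpace.single j (1 : ℝ))⟫_ℝ := by
    rw [LinearIsometryEquiv.inner_map_map]
    rw [inner_co]
    simp
  rw [e2, inner_co, e1]
  refine (clAlg κ S).sum_mem fun l _ => (clAlg κ S).mul_mem ?_ ((hg j l).cl S)
  exact (clAlg κ S).sub_mem (subset_cl κ S (mem_range_self l)) ((h0 l).cl S)

/-- plane unit vectors: parallel means equal or opposite -/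
theorem cross_ne (u v : EE 0) (hu : ⟪u, u⟫_ℝ = 1) (hv : ⟪v, v⟫_ℝ = 1) (h1 : v ≠ u) (h2 : v ≠ -u) :
    u.ofLp 0 * v.ofLp 1 - u.ofLp 1 * v.ofLp 0 ≠ 0 := by
  intro h
  rw [norm_co, Fin.sum_univ_two] at hu hv
  obtain ⟨c, hc⟩ : ∃ c, c = u.ofLp 0 * v.ofLp 0 + u.ofLp 1 * v.ofLp 1 := ⟨_, rfl⟩
  have hc2 : c ^ 2 = 1 := by
    have : c ^ 2 = (u.ofLp 0 ^ 2 + u.ofLp 1 ^ 2) * (v.ofLp 0 ^ 2 + v.ofLp 1 ^ 2) -
        (u.ofLp 0 * v.ofLp 1 - u.ofLp 1 * v.ofLp 0) ^ 2 := by rw [hc]; ring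
    rw [this, hu, hv, h]; ring
  have e0 : v.ofLp 0 = c * u.ofLp 0 := by
    have : c * u.ofLp 0 = v.ofLp 0 * (u.ofLp 0 ^ 2 + u.ofLp 1 ^ 2) +
      (u.ofLp 0 * v.ofLp 1 - u.ofLp 1 * v.ofLp 0) * u.ofLp 1 := by rw [hc]; ring
    rw [this, hu, h]; ring
  have e1 : v.ofLp 1 = c * u.ofLp 1 := by
    have : c * u.ofLp 1 = v.ofLp 1 * (u.ofLp 0 ^ 2 + u.ofLp 1 ^ 2) -
      (u.ofLp 0 * v.ofLp 1 - u.ofLp 1 * v.ofLp 0) * u.ofLp 0 := by rw [hc]; ring
    rw [this, hu, h]; ring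
  rcases (show c = 1 ∨ c = -1 by
    have h5 : (c - 1) * (c + 1) = 0 := by linear_combination hc2
    rcases mul_eq_zero.1 h5 with h6 | h6
    · left; linarith
    · right; linarith) with h3 | h3
  · apply h1
    ext i
    fin_cases i
    · simp only [Fin.zero_eta, Fin.isValue]; rw [e0, h3, one_mul]
    · simp only [Fin.mk_one, Fin.isValue]; rw [e1, h3, one_mul]
  · apply h2
    ext i
    fin_cases i
    · simp only [Fin.zero_eta, Fin.isValue, PiLp.neg_apply]; rw [e0, h3]; ring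
    · simp only [Fin.mk_one, Fin.isValue, PiLp.neg_apply]; rw [e1, h3]; ring

theorem unit_rk {κ : Type*} [Field κ] [Algebra κ ℝ] (v : Fin 2 → ℝ) (h : ∑ i, v i ^ 2 = 1) :
    rk κ (range v) ≤ (1 : ℕ∞) := by
  have h1 := rk_lt_of_relation κ v (Dq κ 2 - 1) ?_ ?_
  · exact_mod_cast h1
  · intro h0
    have h2 := congrArg (aeval (fun _ => (0 : ℝ))) h0
    unfold Dq at h2
    simp at h2
  · unfold Dq
    simp only [map_sub, map_sum, map_pow, aeval_X, map_one]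
    rw [h, sub_self]

end Pool.Agent.Y294.TB
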