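import Pool.Agent.TH746.AL.Main
import Pool.Agent.H721R2.Quart.A1
import Pool.Agent.H721R2.Ivrii.SetNull

/-!
Statements of the lemmas of the project TB (plane tables, periodic orbits with at most two bounces
which are not at noncircular algebraic boundary points).
-/

set_option autoImplicit false

open MeasureTheory Set Filter Topology
open scoped InnerProductSpace
open Pool.Agent.H721R2.Quart Pool.Agent.H721R2.Ivrii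

namespace Pool.Agent.Y294.TB

open Pool.Agent.TH746 Pool.Agent.TH746.AL MvPolynomial H450Al H450Sp

/-! ### Algebra -/

/-- `y` is not annihilated by a nonzero polynomial over `k` in the residue field of `B` -/
def ResTr (k : Type*) {F : Type*} [Field k] [Field F] [Algebra k F] (B : ValuationSubring F)
    (y : F) : Prop :=
  ∀ f : Polynomial k, f ≠ 0 → Polynomial.aeval y f ∉ B.nonunits

/-- DELTA -/
def S_DELTA : Prop :=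
  ∀ (k : Type) [Field k] [Algebra k ℝ] (B : ValuationSubring ℂ)
    (_ : ∀ a : k, algebraMap k ℂ a ∈ B)
    (qz qw qz' qw' f h f' h' σ s s' z w Pz Pw N : ℂ),
    qz ∈ B → qw ∈ B → qz' ∈ B → qw' ∈ B → f ∈ B.nonunits → h ∈ B → h ∉ B.nonunits →
    f' ∈ B → h' ∈ B → (f' ∉ B.nonunits ∨ h' ∉ B.nonunits) → σ ∈ B →
    f * h = N → f' * h' = N → z = qz + s * f → w = qw + s * h → z = qz' + s' * f' →
    w = qw' + s' * h' →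
    N * (s + s' + σ) ^ 2 ∈ B → N * (s + s' + σ) ^ 2 ∉ B.nonunits →
    (f + f') * Pz = (h + h') * Pw → h + h' ≠ 0 → Pz ≠ 0 →
    (w ∉ B → z ∈ cl k {w} ∧ Pw / Pz ∈ cl k {w}) →
    ResTr k B qz → False

/-- CHAIN -/
def S_CHAIN : Prop :=
  ∀ (k : Type) [Field k] [Algebra k ℝ] (K : IntermediateField k ℝ) (B : ValuationSubring ℝ)
    (_ : ∀ a ∈ K, a ∈ B) (N : ℕ) (P Φ : ℕ → MvPolynomial (Fin 2) k) (q e : ℕ → Fin 2 → ℝ)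
    (s : ℕ → ℝ),
    (1 : ℕ∞) ≤ rk k (range (q 0)) → (∀ i, q 0 i ∈ K) → (∀ i, e 0 i ∈ B) →
    (∑ i, e 0 i ^ 2) ∈ B.nonunits → (∃ i, ResTr K B (e 0 i)) →
    (∀ i, 1 ≤ i → i ≤ N → aeval (q i) (P i) = 0) →
    (∀ i, 1 ≤ i → i ≤ N → ¬ Dq k 2 ∣ lead (P i)) →
    (∀ i, 1 ≤ i → i ≤ N → grad (Φ i) (q i) ≠ 0) →
    (∀ i < N, q (i + 1) = fun l => q i l + s i * e i l) →
    (∀ i < N, e (i + 1) = refl (grad (Φ (i + 1)) (q (i + 1))) (e i)) →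
    (∑ i ∈ Finset.range N, s i) ∈ B ∧ (∀ l, q N l ∈ B) ∧ (∀ l, e N l ∈ B) ∧
      (∃ l, e N l ∉ B.nonunits) ∧ (∑ i, e N i ^ 2 = ∑ i, e 0 i ^ 2) ∧
      ∀ (C : ValuationSubring ℂ) (ι : ℂ), (∀ r : ℝ, (r : ℂ) ∈ C ↔ r ∈ B) → ι ^ 2 = -1 →
        (e N 0 : ℂ) + ι * e N 1 ∈ C.nonunits → ResTr k C ((q N 0 : ℂ) + ι * q N 1)

/-- LEN -/
def S_LEN : Prop :=
  ∀ (k : Type) [Field k] [Algebra k ℝ] (K : IntermediateField k ℝ) (n : ℕ)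
    (Φ : ℕ → MvPolynomial (Fin 2) k)
    (q u : ℕ → Fin 2 → ℝ) (t : ℕ → ℝ), 1 ≤ n →
    (∀ i, q 0 i ∈ K) → (∀ i, IsAlgebraic K (q n i)) →
    (∀ i < n, ∑ l, u i l ^ 2 = 1) →
    (∀ i, 1 ≤ i → i < n → aeval (q i) (Φ i) = 0) →
    (∀ i < n, q (i + 1) = fun l => q i l + t i * u i l) →
    (∀ i, i + 1 < n → u (i + 1) = refl (grad (Φ (i + 1)) (q (i + 1))) (u i)) →
    IsAlgebraic K (∑ i ∈ Finset.range n, t i)

/-- PLACE -/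
def S_PLACE : Prop :=
  ∀ (k : Type) [Field k] [Algebra k ℝ] (K : IntermediateField k ℝ) (_ : Countable K)
    (u : Fin 2 → ℝ),
    (1 : ℕ∞) ≤ rk K (range u) → ∑ i, u i ^ 2 = 1 →
    ∃ (lam : ℝ) (B : ValuationSubring ℝ), lam ≠ 0 ∧ (∀ a ∈ K, a ∈ B) ∧
      (∀ i, lam * u i ∈ B) ∧ lam ^ 2 ∈ B.nonunits ∧ (∃ i, ResTr K B (lam * u i))

/-- CORE1 -/
def S_CORE1 : Prop :=
  ∀ (k : Type) [Field k] [Algebra k ℝ] (K : IntermediateField k ℝ) (_ : Countable K) (n : ℕ)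
    (P Φ : ℕ → MvPolynomial (Fin 2) k) (q u : ℕ → Fin 2 → ℝ) (t : ℕ → ℝ), 1 ≤ n →
    (∀ i, q 0 i ∈ K) → (∀ i, IsAlgebraic K (q n i)) →
    (1 : ℕ∞) ≤ rk k (range (q 0)) → (1 : ℕ∞) ≤ rk K (range (u 0)) →
    ∑ i, u 0 i ^ 2 = 1 →
    (∀ i, 1 ≤ i → i < n → aeval (q i) (P i) = 0) →
    (∀ i, 1 ≤ i → i < n → ¬ Dq k 2 ∣ lead (P i)) →
    (∀ i, 1 ≤ i → i < n → aeval (q i) (Φ i) = 0) →
    (∀ i, 1 ≤ i → i < n → grad (Φ i) (q i) ≠ 0) →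
    (∀ i < n, q (i + 1) = fun l => q i l + t i * u i l) →
    (∀ i, i + 1 < n → u (i + 1) = refl (grad (Φ (i + 1)) (q (i + 1))) (u i)) →
    ∑ i ∈ Finset.range n, t i ≠ 0 → False

/-- CORE2 -/
def S_CORE2 : Prop :=
  ∀ (k : Type) [Field k] [Algebra k ℝ] (K : IntermediateField k ℝ) (_ : Countable K) (n j : ℕ)
    (P Φ : ℕ → MvPolynomial (Fin 2) k) (q u : ℕ → Fin 2 → ℝ) (t : ℕ → ℝ)
    (M : Fin 2 → Fin 2 → ℝ), 1 ≤ j → j < n →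
    (∀ i, q 0 i ∈ K) → (∀ i, q n i ∈ K) →
    (1 : ℕ∞) ≤ rk k (range (q 0)) → (1 : ℕ∞) ≤ rk k (range (q n)) →
    (1 : ℕ∞) ≤ rk K (range (u 0)) → ∑ i, u 0 i ^ 2 = 1 →
    (∀ i l, M i l ∈ K) → (∀ v : Fin 2 → ℝ, ∑ i, (∑ l, M i l * v l) ^ 2 = ∑ i, v i ^ 2) →
    (u (n - 1) = fun i => ∑ l, M i l * u 0 l) →
    (∀ i, 1 ≤ i → i < n → i ≠ j → aeval (q i) (P i) = 0) →
    (∀ i, 1 ≤ i → i < n → i ≠ j → ¬ Dq k 2 ∣ lead (P i)) →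
    (∀ i, 1 ≤ i → i < n → aeval (q i) (Φ i) = 0) →
    (∀ i, 1 ≤ i → i < n → grad (Φ i) (q i) ≠ 0) →
    (∀ i < n, q (i + 1) = fun l => q i l + t i * u i l) →
    (∀ i, i + 1 < n → u (i + 1) = refl (grad (Φ (i + 1)) (q (i + 1))) (u i)) →
    ∑ l, u (j - 1) l * grad (Φ j) (q j) l ≠ 0 →
    ∑ i ∈ Finset.range n, t i ≠ 0 → False

/-- TWO: the arbitrary bounce point is the intersection of two lines -/
def S_TWO : Prop :=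
  ∀ (k : Type) [Field k] [Algebra k ℝ] (n j : ℕ) (S : Set ℝ) (Φ : ℕ → MvPolynomial (Fin 2) k)
    (q u : ℕ → Fin 2 → ℝ) (t : ℕ → ℝ), 1 ≤ j → j < n →
    (∀ i, q 0 i ∈ cl k S) → (∀ i, u 0 i ∈ cl k S) → (∀ i, q n i ∈ cl k S) →
    (∀ i, u (n - 1) i ∈ cl k S) →
    (∀ i, 1 ≤ i → i < n → i ≠ j → aeval (q i) (Φ i) = 0) →
    (∀ i, i + 1 < n → i + 1 ≠ j → ∑ l, grad (Φ (i + 1)) (q (i + 1)) l * u i l ≠ 0) →
    (∀ i < n, q (i + 1) = fun l => q i l + t i * u i l) →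
    (∀ i, i + 1 < n → i + 1 ≠ j →
      u (i + 1) = refl (grad (Φ (i + 1)) (q (i + 1))) (u i)) →
    u (j - 1) 0 * u j 1 - u (j - 1) 1 * u j 0 ≠ 0 → ∀ i, q j i ∈ cl k S

/-! ### Good points -/

/-- every polynomial relation over `k` between the functions `v` at `z` has zero differential -/
def GoodAt (k : Type*) [Field k] [Algebra k ℝ] {Z : Type*} [NormedAddCommGroup Z]
    [NormedSpace ℝ Z] {ι : Type*} [Fintype ι] (v : ι → Z → ℝ) (z : Z) : Prop :=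
  ∀ Q : MvPolynomial ι k, aeval (fun l => v l z) Q = 0 →
    ∀ ζ, ∑ l, aeval (fun l => v l z) (pderiv l Q) * fderiv ℝ (v l) z ζ = 0

/-- GOOD -/
def S_GOOD : Prop :=
  ∀ (Z : Type) [NormedAddCommGroup Z] [NormedSpace ℝ Z] [FiniteDimensional ℝ Z]
    [MeasurableSpace Z] [BorelSpace Z] (μ : Measure Z) [μ.IsAddHaarMeasure]
    (k : Type) [Field k] [Algebra k ℝ] [Countable k] (ι : Type) [Fintype ι] (v : ι → Z → ℝ)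
    (A : Set Z), MeasurableSet A → (∀ z ∈ A, ∀ l, DifferentiableAt ℝ (v l) z) →
    ∃ B ⊆ A, MeasurableSet B ∧ μ (A \ B) = 0 ∧ ∀ z ∈ B, GoodAt k v z

/-- DEP -/
def S_DEP : Prop :=
  ∀ (Z : Type) [NormedAddCommGroup Z] [NormedSpace ℝ Z] (k : Type) [Field k] [Algebra k ℝ]
    (ι : Type) [Fintype ι] (v : ι → Z → ℝ) (z : Z), GoodAt k v z →
    ∀ (S : Set ι) (i : ι) (ζ : Z), v i z ∈ cl k ((fun l => v l z) '' S) →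
      (∀ l ∈ S, fderiv ℝ (v l) z ζ = 0) → fderiv ℝ (v i) z ζ = 0

/-- SEL -/
def S_SEL : Prop :=
  ∀ (Z₁ Z₂ : Type) [NormedAddCommGroup Z₁] [NormedSpace ℝ Z₁] [FiniteDimensional ℝ Z₁]
    [MeasurableSpace Z₁] [BorelSpace Z₁] [NormedAddCommGroup Z₂] [NormedSpace ℝ Z₂]
    [FiniteDimensional ℝ Z₂] [MeasurableSpace Z₂] [BorelSpace Z₂]
    (μ : Measure (Z₁ × Z₂)) [μ.IsAddHaarMeasure] (U A : Set (Z₁ × Z₂)) (β : Z₁ × Z₂ → ℝ),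
    Module.finrank ℝ Z₂ = 1 → IsOpen U → (∀ z ∈ U, ContDiffAt ℝ 1 β z) → A ⊆ U →
    MeasurableSet A → μ A ≠ 0 → (∀ z ∈ A, ∃ ζ : Z₂, fderiv ℝ β z (0, ζ) ≠ 0) →
    ∃ (x : Z₁) (A₁ : Set (Z₁ × Z₂)), A₁ ⊆ A ∧ MeasurableSet A₁ ∧ μ A₁ ≠ 0 ∧
      ∀ z ∈ A₁, ∃ y : Z₂, (x, y) ∈ A ∧ β (x, y) = β z

/-! ### The chart -/

/-- the coordinates of positions, directions and normals along a chain -/
def vv {Z : Type*} [NormedAddCommGroup Z] [NormedSpace ℝ Z] (C : Chn (EE 0) Z) :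
    Fin 3 × Fin (C.N + 1) × Fin 2 → Z → ℝ := fun l z =>
  (if l.1 = 0 then C.x l.2.1 z else if l.1 = 1 then C.e l.2.1 z else C.n l.2.1 z).ofLp l.2.2

/-- SURJ -/
def S_SURJ : Prop :=
  ∀ (Z : Type) [NormedAddCommGroup Z] [NormedSpace ℝ Z] (C : Chn (EE 0) Z),
    ∀ k < C.N, ∀ z ∈ C.U, ∀ Y δ, ⟪C.n k z, Y⟫_ℝ = 0 → ⟪C.e k z, δ⟫_ℝ = 0 →
      ∃ ζ, fderiv ℝ (C.x k) z ζ = Y ∧ fderiv ℝ (C.e k) z ζ = δ

/-- NI: normal incidence is negligible -/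
def S_NI : Prop :=
  ∀ (Z : Type) [NormedAddCommGroup Z] [NormedSpace ℝ Z] [FiniteDimensional ℝ Z]
    [MeasurableSpace Z] [BorelSpace Z] (μ : Measure Z) [μ.IsAddHaarMeasure]
    (C : Chn (EE 0) Z) (j : ℕ), 1 ≤ j → j < C.N →
    μ {z | z ∈ C.U ∧ C.e j z = -C.e (j - 1) z} = 0

/-- PT1: points have positive rank at good points -/
def S_PT1 : Prop :=
  ∀ (Z : Type) [NormedAddCommGroup Z] [NormedSpace ℝ Z] (C : Chn (EE 0) Z) (k : Type)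
    [Field k] [Algebra k ℝ] (z : Z), z ∈ C.U → GoodAt k (vv C) z → ∀ i < C.N, (1 : ℕ∞) ≤ rk k (range (C.x i z).ofLp)

/-- PT2: the normals are gradients of polynomials over the field -/
def S_PT2 : Prop :=
  ∀ (Z : Type) [NormedAddCommGroup Z] [NormedSpace ℝ Z] (C : Chn (EE 0) Z) (k : Type)
    [Field k] [Algebra k ℝ] (z : Z), z ∈ C.U → GoodAt k (vv C) z → ∀ i < C.N, rk k (range (C.x i z).ofLp) ≤ (1 : ℕ∞) →
    ∃ Φ : MvPolynomial (Fin 2) k, aeval (C.x i z).ofLp Φ = 0 ∧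
      grad Φ (C.x i z).ofLp ≠ 0 ∧
      (∀ v : EE 0, (rf (C.n i z) v).ofLp = refl (grad Φ (C.x i z).ofLp) v.ofLp) ∧
      (∀ v : EE 0, ⟪C.n i z, v⟫_ℝ ≠ 0 → ∑ l, v.ofLp l * grad Φ (C.x i z).ofLp l ≠ 0)

/-- the data of the initial vertex of a family of trajectories are functions of the first
parameter, the initial direction is a function of the second one -/
structure Split {Z₁ Z₂ : Type*} [NormedAddCommGroup Z₁] [NormedSpace ℝ Z₁]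
    [NormedAddCommGroup Z₂] [NormedSpace ℝ Z₂] (C : Chn (EE 0) (Z₁ × Z₂)) : Prop where
  x0 : ∃ X : Z₁ → EE 0, C.x 0 = fun z => X z.1
  n0 : ∃ ν : Z₁ → EE 0, C.n 0 = fun z => ν z.1
  e0 : ∃ Y : Z₂ → EE 0, C.e 0 = fun z => Y z.2

/-- PT3: the initial direction has positive rank over the field of the initial vertex -/
def S_PT3 : Prop :=
  ∀ (Z₁ Z₂ : Type) [NormedAddCommGroup Z₁] [NormedSpace ℝ Z₁] [NormedAddCommGroup Z₂]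
    [NormedSpace ℝ Z₂] (C : Chn (EE 0) (Z₁ × Z₂)) (k : Type) [Field k] [Algebra k ℝ] (z : Z₁ × Z₂),
    z ∈ C.U →
    Split C → GoodAt k (vv C) z →
    (1 : ℕ∞) ≤ rk (IntermediateField.adjoin k (range (C.x 0 z).ofLp ∪ range (C.n 0 z).ofLp))
      (range (C.e 0 z).ofLp)

/-- PT4: a vertex that does not move with the initial direction is algebraic over the field of the
initial vertex -/
def S_PT4 : Prop :=
  ∀ (Z₁ Z₂ : Type) [NormedAddCommGroup Z₁] [NormedSpace ℝ Z₁] [NormedAddCommGroup Z₂]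
    [NormedSpace ℝ Z₂] (C : Chn (EE 0) (Z₁ × Z₂)) (k : Type) [Field k] [Algebra k ℝ] (z : Z₁ × Z₂),
    z ∈ C.U →
    Split C → GoodAt k (vv C) z → ∀ j < C.N,
    (∀ ζ : Z₂, fderiv ℝ (C.x j) z (0, ζ) = 0) →
    (∀ i, (C.x j z).ofLp i ∈
      cl k ((range (C.x 0 z).ofLp ∪ range (C.n 0 z).ofLp) ∪ range (C.e 0 z).ofLp)) →
    ∀ i, IsAlgebraic (IntermediateField.adjoin k (range (C.x 0 z).ofLp ∪
      range (C.n 0 z).ofLp)) ((C.x j z).ofLp i)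

/-- CHART -/
def S_CHART : Prop :=
  ∀ (Ω : Set (EE 0)) (g : EE 0 ≃ᵃⁱ[ℝ] EE 0) (n : ℕ) (p u : ℕ → EE 0), g ⁻¹' Ω = Ω →
    OrbitMod Ω g n p u →
    ∃ (a b : EE 0) (C : Chn (EE 0) ((ℝ ∙ a)ᗮ × (ℝ ∙ b)ᗮ)), a ≠ 0 ∧ b ≠ 0 ∧
      C.N = n ∧ C.g = g ∧ Split C ∧
      (∀ z ∈ C.U, ∀ k ≤ n, ContDiffAt ℝ 1 (C.x k) z) ∧
      (∀ k ≤ n, ∃ T : EE 0 →L[ℝ] ℝ,
        (∀ z ∈ C.U, ∀ z' ∈ C.U, T (C.x k z) = T (C.x k z') → C.x k z = C.x k z') ∧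
        ∀ z ∈ C.U, ∀ ζ, T (fderiv ℝ (C.x k) z ζ) = 0 → fderiv ℝ (C.x k) z ζ = 0) ∧
      (∀ m ≤ n, ∃ K, LipschitzOnWith K (fun z => (C.x m z, C.e m z)) C.U) ∧
      ∀ᶠ w : (ℕ → EE 0) × (ℕ → EE 0) in 𝓝 (p, u), OrbitMod Ω g n w.1 w.2 →
        ∃ z ∈ C.U, (∀ k ≤ n, C.x k z = w.1 k ∧ C.e k z = w.2 k) ∧
          C.n C.N z = C.G (C.n 0 z)

/-! ### Assembly -/

/-- the leading form of a real polynomial is not divisible by `X₁² + X₂²` -/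
def NC (P : MvPolynomial (Fin 2) ℝ) : Prop :=
  ¬ (∑ i, X i ^ 2) ∣ homogeneousComponent P.totalDegree P

/-- LOCAL -/
def S_LOCAL : Prop :=
  ∀ (Z₁ Z₂ : Type) [NormedAddCommGroup Z₁] [NormedSpace ℝ Z₁] [FiniteDimensional ℝ Z₁]
    [MeasurableSpace Z₁] [BorelSpace Z₁] [NormedAddCommGroup Z₂] [NormedSpace ℝ Z₂]
    [FiniteDimensional ℝ Z₂] [MeasurableSpace Z₂] [BorelSpace Z₂]
    (μ : Measure (Z₁ × Z₂)) [μ.IsAddHaarMeasure] (C : Chn (EE 0) (Z₁ × Z₂)) (k : Subfield ℝ)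
    (_ : Countable k) (j : ℕ) (P : ℕ → MvPolynomial (Fin 2) k),
    Module.finrank ℝ Z₂ = 1 → Split C →
    (∀ z ∈ C.U, ∀ i ≤ C.N, ContDiffAt ℝ 1 (C.x i) z) →
    (∃ T : EE 0 →L[ℝ] ℝ,
      (∀ z ∈ C.U, ∀ z' ∈ C.U, T (C.x j z) = T (C.x j z') → C.x j z = C.x j z') ∧
      ∀ z ∈ C.U, ∀ ζ, T (fderiv ℝ (C.x j) z ζ) = 0 → fderiv ℝ (C.x j) z ζ = 0) →
    1 ≤ j → j < C.N →
    (∀ i, (C.g 0).ofLp i ∈ k) →
    (∀ i l, (C.g.linearIsometryEquiv (EuclideanSpace.single i 1)).ofLp l ∈ k) →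
    (∀ i, 1 ≤ i → i < C.N → i ≠ j → NC (map (algebraMap k ℝ) (P i))) →
    μ {z | z ∈ C.U ∧ C.x C.N z = C.g (C.x 0 z) ∧ C.e C.N z = C.G (C.e 0 z) ∧
      C.n C.N z = C.G (C.n 0 z) ∧
      ∀ i, 1 ≤ i → i < C.N → i ≠ j → aeval (C.x i z).ofLp (P i) = 0} = 0

/-- GLOB -/
def S_GLOB : Prop :=
  ∀ (Ω : Set (EE 0)) (Γ : Set (EE 0 ≃ᵃⁱ[ℝ] EE 0)), Γ.Countable → (∀ g ∈ Γ, g ⁻¹' Ω = Ω) →
    μH[(2 : ℝ)] {z : EE 0 × EE 0 | ∃ g ∈ Γ, ∃ (n : ℕ) (p u : ℕ → EE 0), OrbitMod Ω g n p u ∧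
      (p 0, u 0) = z ∧ ∃ a < n, ∃ b, a < b ∧ b < a + n ∧
        ∀ k, a < k → k < a + n → k ≠ b → AlgAt Ω (p k)} = 0

/-- INV: noncircular algebraic boundary points are preserved by the symmetries of the table -/
def S_INV : Prop :=
  ∀ (d : ℕ) (Ω : Set (EuclideanSpace ℝ (Fin d)))
    (g : EuclideanSpace ℝ (Fin d) ≃ᵃⁱ[ℝ] EuclideanSpace ℝ (Fin d)) (q : EuclideanSpace ℝ (Fin d)),
    g ⁻¹' Ω = Ω → AlgAt Ω q → AlgAt Ω (g q)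

end Pool.Agent.Y294.TB
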